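import Pool.Agent.R384.Z.Fm
import Pool.Agent.R384.Z.Abs

/-!
# Two-dimensional representations of the Galois group of `ℚ` whose restriction to `ℚ(√-d)` is
# unramified outside `2`
-/

set_option autoImplicit false
set_option linter.unusedSectionVars false

namespace Pool.Agent.J6H32.SQ

open Pool.Agent.Z384
open Pool.Agent.Y715.Red Pool.Agent.Y715.Nr Pool.Agent.W237.RK
open Pool.Agent.Y715.Gi (QB KK GK i₀_mem gk_fix)
open Pool.Agent.Y715.Df (Cmp exists_cmp gh)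
open IsLocalRing Matrix

/-- restriction of scalars -/
noncomputable def rs (s : QB) : GK s →* (QB ≃ₐ[ℚ] QB) := AlgEquiv.restrictScalarsHom ℚ

lemma rs_apply {s : QB} (σ : GK s) (x : QB) : rs s σ x = σ x := rfl

lemma rs_cont (s : QB) : Continuous (rs s) := by
  refine continuous_of_continuousAt_one (rs s) ?_
  intro U hU
  rw [map_one] at hU
  obtain ⟨E, hE, hEU⟩ := (krullTopology_mem_nhds_one_iff ℚ QB U).1 hU
  obtain ⟨α, hα⟩ := Field.exists_primitive_element ℚ E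
  have hopen := stabilizer_isOpen_of_isIntegral (K := KK s) (L := QB) (α : QB)
  refine Filter.mem_map.2 (Filter.mem_of_superset (hopen.mem_nhds (one_mem _)) fun σ hσ => hEU ?_)
  have hσα : σ (α : QB) = α := hσ
  show rs s σ ∈ E.fixingSubgroup
  rw [IntermediateField.mem_fixingSubgroup_iff]
  intro x hx
  have hx2 : (⟨x, hx⟩ : E) ∈ IntermediateField.adjoin ℚ {α} := by rw [hα]; trivial
  have key : ∀ y : E, y ∈ IntermediateField.adjoin ℚ {α} → rs s σ (y : QB) = y := by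
    intro y hy
    induction hy using IntermediateField.adjoin_induction with
    | mem y hy =>
      rw [Set.mem_singleton_iff] at hy
      rw [hy]
      exact hσα
    | algebraMap y => exact AlgEquiv.commutes _ _
    | add y z _ _ hy hz => rw [IntermediateField.coe_add, map_add, hy, hz]
    | mul y z _ _ hy hz => rw [IntermediateField.coe_mul, map_mul, hy, hz]
    | inv y _ hy => rw [IntermediateField.coe_inv, map_inv₀, hy]
  exact key _ hx2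

/-- the stabilizer of `s` -/
def TT (s : QB) : Subgroup (QB ≃ₐ[ℚ] QB) where
  carrier := {σ | σ s = s}
  mul_mem' := by
    intro a b ha hb
    show a (b s) = s
    rw [show b s = s from hb]
    exact ha
  one_mem' := rfl
  inv_mem' := by
    intro a ha
    have h : (a⁻¹ * a) s = s := by rw [inv_mul_cancel]; rfl
    rw [AlgEquiv.mul_apply, show a s = s from ha] at h
    exact h

lemma mem_TT {s : QB} {σ : QB ≃ₐ[ℚ] QB} : σ ∈ TT s ↔ σ s = s := Iff.rfl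

lemma exists_rs {s : QB} {σ : QB ≃ₐ[ℚ] QB} (h : σ ∈ TT s) : ∃ τ : GK s, rs s τ = σ := by
  have hfix : σ ∈ (KK s).fixingSubgroup := by
    rw [IntermediateField.mem_fixingSubgroup_iff]
    intro x hx
    induction hx using IntermediateField.adjoin_induction with
    | mem y hy =>
      rw [Set.mem_singleton_iff] at hy
      rw [hy]
      exact h
    | algebraMap y => exact AlgEquiv.commutes _ _
    | add y z _ _ hy hz => rw [map_add, hy, hz]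
    | mul y z _ _ hy hz => rw [map_mul, hy, hz]
    | inv y _ hy => rw [map_inv₀, hy]
  exact ⟨(IntermediateField.fixingSubgroupEquiv (KK s)) ⟨σ, hfix⟩, rfl⟩

lemma TT_index {s : QB} {d : ℕ} (hs : s ^ 2 = -(d : QB)) (hd : d ≠ 0) : (TT s).index = 2 := by
  obtain ⟨c, hc⟩ := exists_conj hs hd
  have hs0 : s ≠ 0 := by
    rintro rfl
    apply hd
    have : (d : QB) = 0 := by
      rw [zero_pow two_ne_zero] at hs
      exact neg_eq_zero.1 hs.symm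
    exact_mod_cast this
  have hne : -s ≠ s := by
    intro h
    apply hs0
    have : (2 : QB) * s = 0 := by linear_combination -h
    exact (mul_eq_zero.1 this).resolve_left two_ne_zero
  have hor : ∀ σ : QB ≃ₐ[ℚ] QB, σ s = s ∨ σ s = -s := by
    intro σ
    have h1 : (σ s) ^ 2 = s ^ 2 := by rw [← map_pow, hs, map_neg, map_natCast]
    exact sq_eq_sq_iff_eq_or_eq_neg.1 h1
  rw [Subgroup.index_eq_two_iff]
  refine ⟨c, fun b => ?_⟩
  rcases hor b with h | h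
  · refine Or.inr ⟨h, fun h1 => ?_⟩
    have h2 : b (c s) = s := h1
    rw [hc, map_neg, h] at h2
    exact hne h2
  · refine Or.inl ⟨?_, fun h1 => ?_⟩
    · show b (c s) = s
      rw [hc, map_neg, h, neg_neg]
    · have h2 : b s = s := h1
      rw [h] at h2
      exact hne h2

lemma TT_open {s : QB} : IsOpen (TT s : Set (QB ≃ₐ[ℚ] QB)) :=
  stabilizer_isOpen_of_isIntegral (K := ℚ) (L := QB) s

variable {A : Type*} [CommRing A] [IsLocalRing A] [IsNoetherianRing A] [TopologicalSpace A] {n : ℕ}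

/-- **Density in the image of the Galois group of `ℚ(√-d)`.** -/
theorem dens {s : QB} {d : ℕ} (hs : s ^ 2 = -(d : QB)) (hF : Fld d)
    (hA : IsAdic (maximalIdeal A)) (hfin : Finite (ResidueField A)) (h2 : (2 : A) ∈ maximalIdeal A)
    {ρ : (QB ≃ₐ[ℚ] QB) →* GL (Fin n) A}
    (hρ : ∀ i j, Continuous fun σ => (ρ σ : Matrix (Fin n) (Fin n) A) i j)
    (hres : ∀ σ, ∃ M : ℕ, InI (maximalIdeal A) (((ρ σ : Matrix (Fin n) (Fin n) A) - 1) ^ M))
    (hu : ∀ (p : ℕ) [Fact p.Prime] (ι : QB →ₐ[ℚ] PadicAlgCl p), p ≠ 2 →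
      ∀ (σ : QB ≃ₐ[ℚ] QB) (τ : Au p), (∀ x, τ (ι x) = ι (σ x)) → Inert τ → σ s = s → ρ σ = 1)
    (ι₀ : QB →ₐ[ℚ] PadicAlgCl 2) (m : ℕ) {g : QB ≃ₐ[ℚ] QB} (hg : g ∈ TT s) :
    ∃ δ ∈ DQ ι₀, δ ∈ TT s ∧ δ⁻¹ * g ∈ cong ρ m := by
  obtain ⟨g', rfl⟩ := exists_rs hg
  have key := dense hs hF (H := (⊤ : Subgroup (GK s))) (N := ⊤) le_rfl inferInstance
    ⟨0, by rw [Subgroup.index_top, pow_zero]⟩ isOpen_univ (fun _ _ _ _ _ _ => trivial) hA hfin h2
    (ρ := ρ.comp ((rs s).comp (Subgroup.subtype ⊤)))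
    (fun i j => (hρ i j).comp ((rs_cont s).comp continuous_subtype_val))
    (fun σ => hres _)
    (fun p _ ι hp σ hσ => by
      obtain ⟨τ, h1, h2⟩ := hσ
      exact hu p ι hp _ τ h1 h2 (gk_fix _)) ι₀ m ⟨g', trivial⟩
  obtain ⟨δ, hδ, hδg⟩ := key
  refine ⟨rs s δ, ?_, gk_fix _, ?_⟩
  · obtain ⟨τ, hτ⟩ := hδ
    exact ⟨τ, hτ⟩
  · exact hδg

lemma fin_trans {G G' : Type*} [Group G] [Group G'] (φ : G' →* G) (D : Set G') (D' : Subgroup G)
    {R : Set G} (hR : R.Finite) (h : ∀ δ ∈ D, ∃ r ∈ R, r⁻¹ * φ δ ∈ D') :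
    ∃ R' : Set G', R'.Finite ∧ ∀ δ ∈ D, ∃ r ∈ R', r⁻¹ * δ ∈ D'.comap φ := by
  classical
  set f : G → G' := fun r => if h : ∃ δ ∈ D, r⁻¹ * φ δ ∈ D' then h.choose else 1 with hf
  refine ⟨f '' R, hR.image f, fun δ hδ => ?_⟩
  obtain ⟨r, hr, hrδ⟩ := h δ hδ
  refine ⟨f r, ⟨r, hr, rfl⟩, ?_⟩
  have hex : ∃ δ ∈ D, r⁻¹ * φ δ ∈ D' := ⟨δ, hδ, hrδ⟩
  have h1 : r⁻¹ * φ (f r) ∈ D' := by
    have e : f r = hex.choose := by rw [hf]; exact dif_pos hex
    rw [e]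
    exact hex.choose_spec.2
  show φ ((f r)⁻¹ * δ) ∈ D'
  have h2 := D'.mul_mem (D'.inv_mem h1) hrδ
  have e : (r⁻¹ * φ (f r))⁻¹ * (r⁻¹ * φ δ) = φ ((f r)⁻¹ * δ) := by
    rw [map_mul, map_inv]
    group
  rwa [e] at h2

variable {F : Type*} [Field F] [Algebra A F] [IsFractionRing A F]

/-- **Stable lines.** -/
theorem line {s : QB} {d : ℕ} (hs : s ^ 2 = -(d : QB)) (hF : Fld d)
    (hA : IsAdic (maximalIdeal A)) (hfin : Finite (ResidueField A)) (h2 : (2 : A) ∈ maximalIdeal A)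
    {ρ : (QB ≃ₐ[ℚ] QB) →* GL (Fin n) A}
    (hρ : ∀ i j, Continuous fun σ => (ρ σ : Matrix (Fin n) (Fin n) A) i j)
    (hres : ∀ σ, ∃ M : ℕ, InI (maximalIdeal A) (((ρ σ : Matrix (Fin n) (Fin n) A) - 1) ^ M))
    (hu : ∀ (p : ℕ) [Fact p.Prime] (ι : QB →ₐ[ℚ] PadicAlgCl p), p ≠ 2 →
      ∀ (σ : QB ≃ₐ[ℚ] QB) (τ : Au p), (∀ x, τ (ι x) = ι (σ x)) → Inert τ → σ s = s → ρ σ = 1)
    (ι₀ : QB →ₐ[ℚ] PadicAlgCl 2) {v : Fin n → F} (hv : v ≠ 0)
    (hD : ∀ δ ∈ DQ ι₀, ∃ c : F, act F ρ δ v = c • v) {g : QB ≃ₐ[ℚ] QB} (hg : g s = s) :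
    ∃ c : F, act F ρ g v = c • v := by
  have hD' : DQ ι₀ ≤ stb ρ (Submodule.span F {v}) := by
    intro δ hδ
    obtain ⟨c, hc⟩ := hD δ hδ
    apply mem_stb_line ρ hv
    rw [hc]
    exact Submodule.smul_mem _ _ (Submodule.mem_span_singleton_self v)
  have h1 : g ∈ stb ρ (Submodule.span F {v}) := by
    refine stb_of_lim ρ _ hD' fun m => ?_
    obtain ⟨δ, h3, -, h4⟩ := dens hs hF hA hfin h2 hρ hres hu ι₀ m (g := g) hg
    exact ⟨δ, h3, h4⟩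
  obtain ⟨c, hc⟩ := Submodule.mem_span_singleton.1
    ((h1 v).1 (Submodule.mem_span_singleton_self v))
  exact ⟨c, hc.symm⟩

/-- **Potentially stable lines.** -/
theorem pline {s : QB} {d : ℕ} (hs : s ^ 2 = -(d : QB)) (hF : Fld d)
    (hA : IsAdic (maximalIdeal A)) (hfin : Finite (ResidueField A)) (h2 : (2 : A) ∈ maximalIdeal A)
    {ρ : (QB ≃ₐ[ℚ] QB) →* GL (Fin 2) A}
    (hρ : ∀ i j, Continuous fun σ => (ρ σ : Matrix (Fin 2) (Fin 2) A) i j)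
    (hres : ∀ σ, ∃ M : ℕ, InI (maximalIdeal A) (((ρ σ : Matrix (Fin 2) (Fin 2) A) - 1) ^ M))
    (hu : ∀ (p : ℕ) [Fact p.Prime] (ι : QB →ₐ[ℚ] PadicAlgCl p), p ≠ 2 →
      ∀ (σ : QB ≃ₐ[ℚ] QB) (τ : Au p), (∀ x, τ (ι x) = ι (σ x)) → Inert τ → σ s = s → ρ σ = 1)
    (ι₀ : QB →ₐ[ℚ] PadicAlgCl 2)
    {D' : Subgroup (QB ≃ₐ[ℚ] QB)} {R : Set (QB ≃ₐ[ℚ] QB)} (hRf : R.Finite)
    (hR : ∀ δ ∈ DQ ι₀, ∃ r ∈ R, r⁻¹ * δ ∈ D')
    (hirr : Irr F ρ)
    {v : Fin 2 → F} (hv : v ≠ 0) (hD' : ∀ δ ∈ D', ∃ c : F, act F ρ δ v = c • v) :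
    (∃ S : Subgroup (QB ≃ₐ[ℚ] QB), S.Normal ∧ S.FiniteIndex ∧ IsOpen (S : Set (QB ≃ₐ[ℚ] QB)) ∧
      (∀ σ ∈ S, ∃ c : F, ∀ w, act F ρ σ w = c • w)) ∨
    ∃ T : Subgroup (QB ≃ₐ[ℚ] QB), T.index = 2 ∧ IsOpen (T : Set (QB ≃ₐ[ℚ] QB)) ∧
      ∀ σ ∈ T, ∃ c : F, act F ρ σ v = c • v := by
  set W : Submodule F (Fin 2 → F) := Submodule.span F {v} with hW
  -- the stabilizer in the Galois group of `ℚ(√-d)`
  obtain ⟨R', hR'f, hR'⟩ := fin_trans (TT s).subtype ((DQ ι₀).subgroupOf (TT s) : Set (TT s)) D' hRf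
    (fun δ hδ => hR δ hδ)
  have h1 : (stb (ρ.comp (TT s).subtype) W).FiniteIndex := by
    refine stab_fin (ρ.comp (TT s).subtype) (D := (DQ ι₀).subgroupOf (TT s))
      (D' := D'.comap (TT s).subtype) (fun m g => ?_) hR'f hR' fun δ hδ w hw => ?_
    · obtain ⟨δ, h3, h4, h5⟩ := dens hs hF hA hfin h2 hρ hres hu ι₀ m g.2
      exact ⟨⟨δ, h4⟩, h3, h5⟩
    · obtain ⟨c, hc⟩ := hD' δ hδ
      obtain ⟨a, rfl⟩ := Submodule.mem_span_singleton.1 hw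
      rw [map_smul]
      show a • act F ρ δ v ∈ W
      rw [hc]
      exact W.smul_mem _ (W.smul_mem _ (Submodule.mem_span_singleton_self v))
  have h3 : (stb ρ W).relIndex (TT s) ≠ 0 := h1.index_ne_zero
  have h4 : (TT s).relIndex ⊤ ≠ 0 := by
    rw [Subgroup.relIndex_top_right, TT_index hs hF.ne_zero]
    norm_num
  have h5 : (stb ρ W).index ≠ 0 := by
    have := Subgroup.relIndex_ne_zero_trans h3 h4
    rwa [Subgroup.relIndex_top_right] at this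
  have h6 : (stb ρ W).FiniteIndex := ⟨h5⟩
  have h7 : Finite ((QB ≃ₐ[ℚ] QB) ⧸ stb ρ W) := inferInstance
  refine dih hA hρ (D := ⊤) (D' := stb ρ W)
    (R := Set.range fun x : (QB ≃ₐ[ℚ] QB) ⧸ stb ρ W => x.out)
    (fun m g => ⟨g, trivial, by rw [inv_mul_cancel]; exact one_mem _⟩)
    (Set.finite_range _) (fun δ _ => ?_) hirr hv (fun δ hδ => ?_)
  · refine ⟨(QuotientGroup.mk δ : (QB ≃ₐ[ℚ] QB) ⧸ stb ρ W).out, ⟨_, rfl⟩, ?_⟩
    exact QuotientGroup.eq.1 (Quotient.out_eq' (QuotientGroup.mk δ : (QB ≃ₐ[ℚ] QB) ⧸ stb ρ W))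
  · obtain ⟨c, hc⟩ := Submodule.mem_span_singleton.1
      ((hδ v).1 (Submodule.mem_span_singleton_self v))
    exact ⟨c, hc.symm⟩

end Pool.Agent.J6H32.SQ
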